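import Pool.Agent.Y574.Z7.B

/-!
# Z700-C2 (helper574): the local sums, and the evaluation of the divisor sums
-/

set_option autoImplicit false

namespace Pool.Agent.Y574.Z7

open Finset Pool.Agent.Z700

/-! ### elementary sums -/

theorem alt_sum (s : ℕ) : ∑ i ∈ range (s + 1), (-1 : ℤ) ^ i * (if 1 ≤ i then 1 else 0) =
    if Odd s then -1 else 0 := by
  induction s with
  | zero => simp
  | succ s ih =>
    rw [Finset.sum_range_succ, ih, if_pos (by omega : 1 ≤ s + 1), mul_one]
    rcases Nat.even_or_odd s with h | h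
    · rw [if_neg (Nat.not_odd_iff_even.2 h), if_pos h.add_one, pow_succ, h.neg_one_pow]
      ring
    · rw [if_pos h, if_neg (Nat.not_odd_iff_even.2 h.add_one), pow_succ, h.neg_one_pow]
      ring

theorem one_sum (t : ℕ) : ∑ j ∈ range (t + 1), (if 1 ≤ j then (1 : ℤ) else 0) = t := by
  induction t with
  | zero => simp
  | succ t ih =>
    rw [Finset.sum_range_succ, ih, if_pos (by omega)]
    push_cast
    ring

theorem two_pt (s t i0 j0 i1 j1 : ℕ) (h0 : i0 ≤ s) (h1 : j0 ≤ t) (h2 : i1 ≤ s) (h3 : j1 ≤ t)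
    (hne : i0 ≠ i1 ∨ j0 ≠ j1) (x y : ℤ) (g : ℕ → ℕ → ℤ) :
    ∑ i ∈ range (s + 1), ∑ j ∈ range (t + 1), g i j * (if i = i0 ∧ j = j0 then x
      else if i = i1 ∧ j = j1 then y else 0) = g i0 j0 * x + g i1 j1 * y := by
  have e : ∀ i ∈ range (s + 1), ∀ j ∈ range (t + 1), g i j * (if i = i0 ∧ j = j0 then x
      else if i = i1 ∧ j = j1 then y else 0) =
      (if i = i0 then (if j = j0 then g i0 j0 * x else 0) else 0) +
      (if i = i1 then (if j = j1 then g i1 j1 * y else 0) else 0) := by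
    intro i _ j _
    by_cases a : i = i0
    · by_cases b : j = j0
      · subst a; subst b
        rcases hne with hne | hne
        · simp [hne]
        · simp [hne]
      · subst a
        by_cases c : i = i1
        · subst c
          by_cases d : j = j1
          · subst d; simp [b]
          · simp [b, d]
        · simp [b, c]
    · by_cases c : i = i1
      · subst c
        by_cases d : j = j1
        · subst d; simp [a]
        · simp [a, d]
      · simp [a, c]
  rw [Finset.sum_congr rfl fun i hi => Finset.sum_congr rfl (e i hi)]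
  simp only [Finset.sum_add_distrib]
  have e2 : ∀ (i0 j0 : ℕ) (z : ℤ), i0 ≤ s → j0 ≤ t → ∑ i ∈ range (s + 1),
      ∑ j ∈ range (t + 1), (if i = i0 then (if j = j0 then z else 0) else 0) = z := by
    intro i0 j0 z h0 h1
    rw [Finset.sum_eq_single i0]
    · simp only [if_true]
      rw [Finset.sum_eq_single j0]
      · simp
      · intro j _ hj; simp [hj]
      · intro h; exact absurd (Finset.mem_range.2 (by omega)) h
    · intro i _ hi; simp [hi]
    · intro h; exact absurd (Finset.mem_range.2 (by omega)) h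
  rw [e2 i0 j0 _ h0 h1, e2 i1 j1 _ h2 h3]

/-! ### the local factors -/

theorem nd4 {l : ℕ} (hl : l.Prime) (h2 : l ≠ 2) : ¬ l ∣ 4 := by
  intro h
  rw [show 4 = 2 * 2 from rfl] at h
  rcases (Nat.Prime.dvd_mul hl).1 h with h | h
  · exact h2 ((Nat.prime_dvd_prime_iff_eq hl Nat.prime_two).1 h)
  · exact h2 ((Nat.prime_dvd_prime_iff_eq hl Nat.prime_two).1 h)

theorem fac_D {S T l : ℕ} (hS : S ≠ 0) (hT : T ≠ 0) (hl : l.Prime) (h2 : l ≠ 2) :
    (4 * S * T).factorization l = S.factorization l + T.factorization l := by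
  rw [Nat.factorization_mul (mul_ne_zero (by norm_num) hS) hT, Nat.factorization_mul (by norm_num) hS,
    Finsupp.add_apply, Finsupp.add_apply, Nat.factorization_eq_zero_of_not_dvd (nd4 hl h2), zero_add]

theorem fac_D2 {S T : ℕ} (hS : S ≠ 0) (hT : Odd T) :
    (4 * S * T).factorization 2 = S.factorization 2 + 2 := by
  have hT0 : T ≠ 0 := by rintro rfl; exact absurd hT (by decide)
  have h4 : (4 : ℕ).factorization 2 = 2 := by
    rw [show (4 : ℕ) = 2 ^ 2 from rfl, Nat.prime_two.factorization_pow, Finsupp.single_eq_same]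
  rw [Nat.factorization_mul (mul_ne_zero (by norm_num) hS) hT0, Nat.factorization_mul (by norm_num) hS,
    Finsupp.add_apply, Finsupp.add_apply, h4,
    Nat.factorization_eq_zero_of_not_dvd (fun h => by
      have := (Nat.odd_iff.1 hT); omega : ¬ 2 ∣ T)]
  ring

theorem chp_D {S T l : ℕ} (hl : l.Prime) : chp l (4 * S * T) = chp l S * chp l T := by
  rw [chp_mul, chp_mul, show 4 = 2 * 2 from rfl, chp_mul, chp_sq hl (by norm_num), one_mul]

theorem fac_m {P : Finset ℕ} (hP : ∀ p ∈ P, Fam p) {l : ℕ} (hl : l ∈ insert 3 P) :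
    (3 * pr P).factorization l = 1 := by
  have hp := mem_prime hP hl
  have h0 : 3 * pr P ≠ 0 := mul_ne_zero (by norm_num) (pr_pos hP).ne'
  apply le_antisymm
  · by_contra h
    push Not at h
    have h1 := (hp.pow_dvd_iff_le_factorization h0).2 h
    exact sq_nd hP hl (by rwa [sq] at h1)
  · exact (dvd_fac hp h0).1 (mem_dvd hl)

theorem chp_m {P : Finset ℕ} (hP : ∀ p ∈ P, Fam p) {l : ℕ} (hl : l ∈ insert 3 P) :
    chp l (3 * pr P) = jacobiSym ((3 * pr P / l : ℕ) : ℤ) l := by
  unfold chp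
  rw [fac_m hP hl, pow_one]

theorem hh_eq {P : Finset ℕ} (hP : ∀ p ∈ P, Fam p) {S T l : ℕ} (hS : S ≠ 0) (hT : T ≠ 0)
    (hl : l ∈ insert 3 P) : hh (3 * pr P) (4 * S * T) l =
      ZMod.χ₄ l * (chp l (3 * pr P)) ^ (S.factorization l + T.factorization l) * (chp l S * chp l T) := by
  have hp := mem_prime hP hl
  have h2 : l ≠ 2 := by
    rcases Finset.mem_insert.1 hl with rfl | hl
    · decide
    · exact fne2 (hP l hl)
  have hodd := hp.odd_of_ne_two h2
  have hsq : chp l (3 * pr P) * chp l (3 * pr P) = 1 :=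
    chp_sq hp (mul_ne_zero (by norm_num) (pr_pos hP).ne')
  have hD : jacobiSym ((4 * S * T / l ^ (4 * S * T).factorization l : ℕ) : ℤ) l = chp l S * chp l T :=
    chp_D hp
  unfold hh
  rw [jacobiSym.neg _ hodd, jacobiSym.neg _ hodd, Nat.cast_mul, jacobiSym.mul_left, hD, ← chp_m hP hl,
    ← fac_D hS hT hp h2]
  split_ifs with h
  · obtain ⟨k, hk⟩ := h
    rw [hk, ← two_mul, pow_mul, sq, hsq, one_pow]
    ring
  · rw [Nat.not_even_iff_odd] at h
    obtain ⟨k, hk⟩ := h
    rw [hk, pow_succ, pow_mul, sq, hsq, one_pow]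
    ring

theorem fac3_eq {P : Finset ℕ} (hP : ∀ p ∈ P, Fam p) {S T : ℕ} (hS : S ≠ 0) (hT : T ≠ 0) :
    fac (3 * pr P) (4 * S * T) 3 = 1 - chp 3 S * chp 3 T := by
  have hm := pr_mod hP
  unfold fac
  rw [if_pos (Dvd.intro _ rfl), hh_eq hP hS hT (Finset.mem_insert_self _ _),
    ZMod.χ₄_nat_three_mod_four (by norm_num : 3 % 4 = 3), chp_m hP (Finset.mem_insert_self _ _),
    Nat.mul_div_cancel_left _ (by norm_num : 0 < 3)]
  have h1 : jacobiSym ((pr P : ℕ) : ℤ) 3 = 1 := by
    rw [jacobiSym.mod_left]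
    have : ((pr P : ℕ) : ℤ) % ((3 : ℕ) : ℤ) = 1 := by omega
    rw [this]; norm_num
  rw [h1, one_pow]
  ring

theorem facp_eq {P : Finset ℕ} (hP : ∀ p ∈ P, Fam p) {S T l : ℕ} (hS : S ≠ 0) (hT : T ≠ 0)
    (hl : l ∈ P) : fac (3 * pr P) (4 * S * T) l =
      1 + Psi P l ^ (S.factorization l + T.factorization l) * (chp l S * chp l T) := by
  have h24 := (hP l hl).2.1
  unfold fac
  rw [if_pos (mem_dvd (Finset.mem_insert_of_mem hl)), hh_eq hP hS hT (Finset.mem_insert_of_mem hl),
    ZMod.χ₄_nat_one_mod_four (by omega), ← Psi_p hP hl]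
  ring

theorem facg_eq {P : Finset ℕ} (hP : ∀ p ∈ P, Fam p) {S T l : ℕ} (hS : S ≠ 0) (hT : T ≠ 0)
    (hp : l.Prime) (h2 : l ≠ 2) (hl : l ∉ insert 3 P) : fac (3 * pr P) (4 * S * T) l =
      ∑ j ∈ range (S.factorization l + T.factorization l + 1), Psi P l ^ j := by
  unfold fac
  rw [if_neg (fun h => hl ((prime_dvd_3pr hP hp).1 h)), fac_D hS hT hp h2, Psi_l hP hp h2 hl]

/-! ### the local sums -/

/-- the sum of the local weights -/
def Ls (P : Finset ℕ) (S T l : ℕ) : ℤ :=
  ∑ i ∈ range (S.factorization l + 1), ∑ j ∈ range (T.factorization l + 1), Wl P S T l i j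

theorem Ls_two {P : Finset ℕ} (hP : ∀ p ∈ P, Fam p) {S T : ℕ} (hT : Odd T) :
    Ls P S T 2 = if Odd (S.factorization 2) then -1 else 0 := by
  have h2 : (2 : ℕ) ∉ insert 3 P := by
    intro h
    rcases Finset.mem_insert.1 h with h | h
    · omega
    · exact fne2 (hP 2 h) rfl
  have hT2 : T.factorization 2 = 0 := Nat.factorization_eq_zero_of_not_dvd (fun h => by
      have := (Nat.odd_iff.1 hT); omega)
  unfold Ls
  rw [hT2, zero_add, ← alt_sum]
  refine Finset.sum_congr rfl fun i _ => ?_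
  rw [Finset.sum_range_one]
  unfold Wl
  rw [if_neg h2, if_pos rfl, if_neg (by norm_num : (2 : ℕ) ≠ 7), Psi_two hP, add_zero]
  ring

theorem Ls_seven {P : Finset ℕ} (hP : ∀ p ∈ P, Fam p) {S T : ℕ} (hS7 : ¬ 7 ∣ S) :
    Ls P S T 7 = (T.factorization 7 : ℤ) := by
  have h7 : (7 : ℕ) ∉ insert 3 P := by
    intro h
    rcases Finset.mem_insert.1 h with h | h
    · omega
    · exact fne7 (hP 7 h) rfl
  unfold Ls
  rw [Nat.factorization_eq_zero_of_not_dvd hS7, zero_add, Finset.sum_range_one, ← one_sum]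
  refine Finset.sum_congr rfl fun j _ => ?_
  unfold Wl
  rw [if_neg h7, if_pos rfl, if_neg (by norm_num : (7 : ℕ) ≠ 2), Psi_seven hP, one_pow]
  ring

theorem Ls_gen {P : Finset ℕ} (hP : ∀ p ∈ P, Fam p) {S T : ℕ} (hS : S ≠ 0) (hT : T ≠ 0)
    (hST : S + T = 3 * pr P) {l : ℕ} (hp : l.Prime) (h2 : l ≠ 2) (h7 : l ≠ 7) (hl : l ∉ insert 3 P) :
    Ls P S T l = fac (3 * pr P) (4 * S * T) l := by
  rw [facg_eq hP hS hT hp h2 hl]
  unfold Ls Wl
  simp only [if_neg hl, if_neg h2, if_neg h7, mul_one]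
  have h0 : S.factorization l = 0 ∨ T.factorization l = 0 := by
    by_contra h
    push Not at h
    have h1 := (dvd_fac hp hS).2 (by omega)
    have h2 := (dvd_fac hp hT).2 (by omega)
    exact hl ((prime_dvd_3pr hP hp).1 (hST ▸ dvd_add h1 h2))
  rcases h0 with h0 | h0
  · rw [h0, zero_add, Finset.sum_range_one, zero_add]
    exact Finset.sum_congr rfl fun j _ => by rw [zero_add]
  · rw [h0, zero_add, add_zero]
    exact Finset.sum_congr rfl fun i _ => by rw [Finset.sum_range_one, add_zero]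

theorem Ls_three {P : Finset ℕ} (hP : ∀ p ∈ P, Fam p) {S T : ℕ} (hS : S ≠ 0) (hT : T ≠ 0)
    (hST : S + T = 3 * pr P) :
    Ls P S T 3 = if 3 ∣ T then fac (3 * pr P) (4 * S * T) 3 else 1 := by
  have h3 : (3 : ℕ) ∈ insert 3 P := Finset.mem_insert_self _ _
  have hd := dvd_iff' hST h3
  unfold Ls Wl wq
  simp only [if_pos h3, if_true, if_neg (by norm_num : (3 : ℕ) ≠ 2), if_neg (by norm_num : (3 : ℕ) ≠ 7),
    mul_one, Psi_three hP, one_pow, one_mul]
  by_cases h : 3 ∣ T
  · rw [if_pos h, fac3_eq hP hS hT]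
    simp only [if_pos h]
    have s1 := (dvd_fac Nat.prime_three hS).1 (hd.2 h)
    have t1 := (dvd_fac Nat.prime_three hT).1 h
    have k := two_pt (S.factorization 3) (T.factorization 3) 0 0 (S.factorization 3) (T.factorization 3)
      (Nat.zero_le _) (Nat.zero_le _) le_rfl le_rfl (Or.inl (by omega)) 1 (-(chp 3 S * chp 3 T))
      (fun _ _ => 1)
    simp only [one_mul] at k
    rw [k]
    ring
  · rw [if_neg h]
    simp only [if_neg h]
    rw [Nat.factorization_eq_zero_of_not_dvd h, Nat.factorization_eq_zero_of_not_dvd (fun h1 => h (hd.1 h1))]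
    simp

theorem Ls_p {P : Finset ℕ} (hP : ∀ p ∈ P, Fam p) {S T : ℕ} (hS : S ≠ 0) (hT : T ≠ 0)
    (hST : S + T = 3 * pr P) {p : ℕ} (hp : p ∈ P) :
    Ls P S T p = (Psi P p ^ S.factorization p * chp p S) *
      (if p ∣ T then fac (3 * pr P) (4 * S * T) p else 1) := by
  have hpm : p ∈ insert 3 P := Finset.mem_insert_of_mem hp
  have hd := dvd_iff' hST hpm
  have hpp := (hP p hp).1
  unfold Ls Wl wq
  simp only [if_pos hpm, if_neg (fne2 (hP p hp)), if_neg (fne3 (hP p hp)), if_neg (fne7 (hP p hp)),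
    mul_one]
  by_cases h : p ∣ T
  · rw [if_pos h, facp_eq hP hS hT hp]
    simp only [if_pos h]
    have s1 := (dvd_fac hpp hS).1 (hd.2 h)
    have t1 := (dvd_fac hpp hT).1 h
    rw [two_pt (S.factorization p) (T.factorization p) (S.factorization p) 0 0 (T.factorization p)
      le_rfl (Nat.zero_le _) (Nat.zero_le _) le_rfl (Or.inl (by omega)) (chp p S) (chp p T)
      (fun i j => Psi P p ^ (i + j))]
    simp only [add_zero, zero_add]
    have c1 := chp_sq hpp hS
    have c2 : Psi P p ^ S.factorization p * Psi P p ^ S.factorization p = 1 := by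
      rw [← mul_pow]
      rcases Psi_pm hP hpp.ne_zero with h | h <;> rw [h] <;> norm_num
    rw [pow_add]
    linear_combination (-(Psi P p ^ T.factorization p * chp p T * (chp p S * chp p S))) * c2 -
      (Psi P p ^ T.factorization p * chp p T) * c1
  · rw [if_neg h]
    simp only [if_neg h]
    rw [Nat.factorization_eq_zero_of_not_dvd h, Nat.factorization_eq_zero_of_not_dvd (fun h1 => h (hd.1 h1))]
    simp only [zero_add, Finset.sum_range_one, pow_zero, one_mul, mul_one]
    rw [chp_nd h, chp_nd (fun h1 => h (hd.1 h1))]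
    have hodd := hpp.odd_of_ne_two (fne2 (hP p hp))
    have h24 := (hP p hp).2.1
    have e1 : jacobiSym (S : ℤ) p = jacobiSym (-(T : ℤ)) p := by
      apply jacobiSym.mod_left'
      have h3 : (p : ℤ) ∣ (S : ℤ) - (-(T : ℤ)) := by
        have h4 : (p : ℤ) ∣ ((3 * pr P : ℕ) : ℤ) := Int.natCast_dvd_natCast.2 (mem_dvd hpm)
        rw [← hST] at h4
        push_cast at h4
        rwa [sub_neg_eq_add]
      exact (Int.modEq_iff_dvd.2 h3).symm
    rw [e1, jacobiSym.neg _ hodd, ZMod.χ₄_nat_one_mod_four (by omega), one_mul]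

/-! ### the assembly -/

/-- the primes apart from `2` and `7` -/
def Q' (P : Finset ℕ) (S T : ℕ) : Finset ℕ := ((QQ P S T).erase 2).erase 7

theorem mem_Q' {P : Finset ℕ} (hP : ∀ p ∈ P, Fam p) {S T l : ℕ} (h : l ∈ Q' P S T) :
    l.Prime ∧ l ≠ 2 ∧ l ≠ 7 ∧ (l ∉ insert 3 P → l ∈ (S * T).primeFactors) := by
  unfold Q' at h
  have h1 := Finset.mem_erase.1 h
  have h2 := Finset.mem_erase.1 h1.2
  refine ⟨QQ_prime hP l h2.2, h2.1, h1.1, fun h3 => ?_⟩
  unfold QQ at h2
  rcases Finset.mem_insert.1 h2.2 with h4 | h4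
  · exact absurd h4 h2.1
  rcases Finset.mem_insert.1 h4 with h4 | h4
  · exact absurd h4 h1.1
  rcases Finset.mem_union.1 h4 with h4 | h4
  · exact absurd h4 h3
  · exact h4

theorem P_sub_Q' {P : Finset ℕ} (hP : ∀ p ∈ P, Fam p) {S T : ℕ} : P ⊆ Q' P S T := fun p hp =>
  Finset.mem_erase.2 ⟨fne7 (hP p hp), Finset.mem_erase.2 ⟨fne2 (hP p hp),
    sub_QQ (Finset.mem_insert_of_mem hp)⟩⟩

theorem three_mem_Q' {P : Finset ℕ} {S T : ℕ} : 3 ∈ Q' P S T :=
  Finset.mem_erase.2 ⟨by norm_num, Finset.mem_erase.2 ⟨by norm_num, sub_QQ (Finset.mem_insert_self _ _)⟩⟩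

/-- the local factor or one -/
def Ff (P : Finset ℕ) (S T l : ℕ) : ℤ :=
  if l ∈ (4 * S * T).primeFactors then fac (3 * pr P) (4 * S * T) l else 1

theorem mem_D {S T l : ℕ} (hS : S ≠ 0) (hT : T ≠ 0) (hl : l.Prime) (h2 : l ≠ 2) :
    l ∈ (4 * S * T).primeFactors ↔ l ∣ S ∨ l ∣ T := by
  rw [Nat.mem_primeFactors, mul_assoc, Nat.Prime.dvd_mul hl, Nat.Prime.dvd_mul hl]
  constructor
  · rintro ⟨_, h | h, _⟩
    · exact absurd h (nd4 hl h2)
    · exact h
  · exact fun h => ⟨hl, Or.inr h, mul_ne_zero (by norm_num) (mul_ne_zero hS hT)⟩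

/-- the local sums away from `2` and `7` -/
theorem Ls_Q' {P : Finset ℕ} (hP : ∀ p ∈ P, Fam p) {S T : ℕ} (hS : S ≠ 0) (hT : T ≠ 0)
    (hST : S + T = 3 * pr P) {l : ℕ} (hl : l ∈ Q' P S T) :
    Ls P S T l = (if l ∈ P then Psi P l ^ S.factorization l * chp l S else 1) * Ff P S T l := by
  obtain ⟨hp, h2, h7, hm⟩ := mem_Q' hP hl
  have hD := mem_D hS hT hp h2
  by_cases hlP : l ∈ P
  · have hd := dvd_iff' hST (Finset.mem_insert_of_mem hlP)
    have hD' : l ∈ (4 * S * T).primeFactors ↔ l ∣ T := by rw [hD, hd, or_self]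
    rw [if_pos hlP, Ls_p hP hS hT hST hlP]
    unfold Ff
    simp only [hD']
  · rw [if_neg hlP, one_mul]
    rcases eq_or_ne l 3 with rfl | h3
    · have hd := dvd_iff' hST (Finset.mem_insert_self 3 P)
      have hD' : 3 ∈ (4 * S * T).primeFactors ↔ 3 ∣ T := by rw [hD, hd, or_self]
      rw [Ls_three hP hS hT hST]
      unfold Ff
      simp only [hD']
    · have hn : l ∉ insert 3 P := by
        intro h
        rcases Finset.mem_insert.1 h with h | h
        · exact h3 h
        · exact hlP h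
      have h4 : l ∈ (4 * S * T).primeFactors := by
        have h5 := Nat.mem_primeFactors.1 (hm hn)
        exact hD.2 ((Nat.Prime.dvd_mul hp).1 h5.2.1)
      rw [Ls_gen hP hS hT hST hp h2 h7 hn]
      unfold Ff
      rw [if_pos h4]

/-- the product of the local factors -/
theorem prod_Ff {P : Finset ℕ} {S T : ℕ} (hS : S ≠ 0) (hT : T ≠ 0) :
    ∏ l ∈ Q' P S T, Ff P S T l =
      ∏ l ∈ ((4 * S * T).primeFactors.erase 2).erase 7, fac (3 * pr P) (4 * S * T) l := by
  classical
  unfold Ff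
  rw [Finset.prod_ite_mem]
  refine Finset.prod_congr ?_ fun _ _ => rfl
  ext l
  rw [Finset.mem_inter]
  constructor
  · rintro ⟨h1, h2⟩
    unfold Q' at h1
    have h3 := Finset.mem_erase.1 h1
    have h4 := Finset.mem_erase.1 h3.2
    exact Finset.mem_erase.2 ⟨h3.1, Finset.mem_erase.2 ⟨h4.1, h2⟩⟩
  · intro h
    have h3 := Finset.mem_erase.1 h
    have h4 := Finset.mem_erase.1 h3.2
    refine ⟨?_, h4.2⟩
    unfold Q'
    refine Finset.mem_erase.2 ⟨h3.1, Finset.mem_erase.2 ⟨h4.1, pf_QQ ?_⟩⟩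
    have h5 := Nat.prime_of_mem_primeFactors h4.2
    exact Nat.mem_primeFactors.2 ⟨h5, (Nat.Prime.dvd_mul h5).2 ((mem_D hS hT h5 h4.1).1 h4.2),
      mul_ne_zero hS hT⟩

/-- the sign -/
theorem sign_eq {P : Finset ℕ} (hP : ∀ p ∈ P, Fam p) {S T : ℕ} (hS : S ≠ 0) (hT : T ≠ 0)
    (hST : S + T = 3 * pr P) (hodd : Odd (S.factorization 2))
    (hF : ∀ l ∈ Q' P S T, Ff P S T l ≠ 0) :
    ∏ l ∈ P, (Psi P l ^ S.factorization l * chp l S) = -chp 3 S := by
  classical
  have h3 := three_notMem hP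
  have e1 : Psi P S = chp 3 S * ∏ l ∈ P, chp l S := by
    unfold Psi
    rw [Finset.prod_insert h3]
  have hsub : S.primeFactors ⊆ QQ P S T :=
    (Nat.primeFactors_mono (dvd_mul_right S T) (mul_ne_zero hS hT)).trans pf_QQ
  have e2 : Psi P S = -∏ l ∈ P, Psi P l ^ S.factorization l := by
    rw [Psi_fac P (QQ P S T) S hS hsub, ← Finset.mul_prod_erase _ _ (mem_QQ2 (P := P) (S := S) (T := T)),
      Psi_two hP, hodd.neg_one_pow,
      ← Finset.mul_prod_erase _ _ (Finset.mem_erase.2 ⟨by norm_num, mem_QQ7 (P := P) (S := S) (T := T)⟩ :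
        7 ∈ (QQ P S T).erase 2), Psi_seven hP, one_pow, one_mul, neg_one_mul]
    congr 1
    symm
    refine Finset.prod_subset (P_sub_Q' hP) fun l hl hlP => ?_
    obtain ⟨hp, h2, h7, hm⟩ := mem_Q' hP hl
    rcases eq_or_ne l 3 with rfl | hl3
    · rw [Psi_three hP, one_pow]
    have hn : l ∉ insert 3 P := by
      intro h
      rcases Finset.mem_insert.1 h with h | h
      · exact hl3 h
      · exact hlP h
    have hD := mem_D hS hT hp h2
    have h4 : l ∈ (4 * S * T).primeFactors := by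
      have h5 := Nat.mem_primeFactors.1 (hm hn)
      exact hD.2 ((Nat.Prime.dvd_mul hp).1 h5.2.1)
    have h5 := hF l hl
    unfold Ff at h5
    rw [if_pos h4, facg_eq hP hS hT hp h2 hn] at h5
    by_cases hlS : l ∣ S
    · have hT0 : T.factorization l = 0 := by
        apply Nat.factorization_eq_zero_of_not_dvd
        intro h
        exact hn ((prime_dvd_3pr hP hp).1 (hST ▸ dvd_add hlS h))
      rw [hT0, add_zero] at h5
      rcases Psi_pm hP hp.ne_zero with h6 | h6
      · rw [h6, one_pow]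
      · rw [h6] at h5 ⊢
        rcases Nat.even_or_odd (S.factorization l) with h7 | h7
        · exact h7.neg_one_pow
        · exfalso
          apply h5
          obtain ⟨k, hk⟩ := h7
          rw [hk]
          have : ∀ k : ℕ, ∑ j ∈ range (2 * k + 1 + 1), (-1 : ℤ) ^ j = 0 := by
            intro k
            induction k with
            | zero => simp [Finset.sum_range_succ]
            | succ k ih =>
              rw [show 2 * (k + 1) + 1 + 1 = (2 * k + 1 + 1) + 1 + 1 by ring, Finset.sum_range_succ,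
                Finset.sum_range_succ, ih, pow_succ (-1 : ℤ) (2 * k + 1 + 1)]
              ring
          exact this k
    · rw [Nat.factorization_eq_zero_of_not_dvd hlS, pow_zero]
  have c1 := chp_sq Nat.prime_three hS
  have c2 : (∏ l ∈ P, Psi P l ^ S.factorization l) * (∏ l ∈ P, Psi P l ^ S.factorization l) = 1 := by
    rw [← Finset.prod_mul_distrib]
    refine Finset.prod_eq_one fun l hl => ?_
    rw [← mul_pow]
    rcases Psi_pm hP (hP l hl).1.ne_zero with h | h <;> rw [h] <;> norm_num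
  rw [Finset.prod_mul_distrib]
  have e3 : ∏ l ∈ P, chp l S = -(chp 3 S * ∏ l ∈ P, Psi P l ^ S.factorization l) := by
    have e4 := e1.symm.trans e2
    linear_combination (chp 3 S) * e4 - (∏ l ∈ P, chp l S) * c1
  rw [e3]
  linear_combination (-chp 3 S) * c2

/-- the weight -/
theorem wt_eq {P : Finset ℕ} (hP : ∀ p ∈ P, Fam p) {S T : ℕ} (hS : S ≠ 0) (hT : T ≠ 0)
    (hST : S + T = 3 * pr P) (hF : Ff P S T 3 ≠ 0) : wt (3 * (pr P : ℤ) - 2 * T) = chp 3 S := by
  have hm := pr_mod hP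
  have hd := dvd_iff' hST (Finset.mem_insert_self 3 P)
  unfold wt
  by_cases h : 3 ∣ T
  · have hS3 := hd.2 h
    rw [if_pos (by omega)]
    unfold Ff at hF
    rw [if_pos ((mem_D hS hT Nat.prime_three (by norm_num)).2 (Or.inr h)), fac3_eq hP hS hT] at hF
    obtain ⟨S', rfl⟩ := hS3
    obtain ⟨T', rfl⟩ := h
    have h1 : S' + T' = pr P := by omega
    rw [chp_mul, chp_mul, chp_self Nat.prime_three, one_mul, one_mul] at hF
    rw [chp_mul, chp_self Nat.prime_three, one_mul]
    have hS0 : S' ≠ 0 := right_ne_zero_of_mul hS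
    have hT0 : T' ≠ 0 := right_ne_zero_of_mul hT
    have h2 : (3 * (pr P : ℤ) - 2 * ((3 * T' : ℕ) : ℤ)) / 3 = (pr P : ℤ) - 2 * T' := by
      push_cast; omega
    rw [h2]
    have h3 : T' % 3 = 0 ∨ T' % 3 = 1 ∨ T' % 3 = 2 := by omega
    rcases h3 with h3 | h3 | h3
    · have h4 : chp 3 S' = 1 := by
        rw [chp_nd (by omega), ← chi3_eq]
        unfold chi3
        rw [if_pos (by omega)]
      rw [h4]
      unfold chi3
      rw [if_pos (by omega)]
    · have h4 : chp 3 T' = 1 := by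
        rw [chp_nd (by omega), ← chi3_eq]
        unfold chi3
        rw [if_pos (by omega)]
      rw [h4, mul_one] at hF
      have h5 : chp 3 S' = -1 := by
        rcases chp_pm Nat.prime_three hS0 with h5 | h5
        · exact absurd (by rw [h5]; norm_num) hF
        · exact h5
      rw [h5]
      unfold chi3
      rw [if_neg (by omega), if_pos (by omega)]
    · exfalso
      apply hF
      have h4 : chp 3 T' = -1 := by
        rw [chp_nd (by omega), ← chi3_eq]
        unfold chi3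
        rw [if_neg (by omega), if_pos (by omega)]
      have h5 : chp 3 S' = -1 := by
        rw [chp_nd (by omega), ← chi3_eq]
        unfold chi3
        rw [if_neg (by omega), if_pos (by omega)]
      rw [h4, h5]
      norm_num
  · rw [if_neg (by omega), chp_nd (fun h1 => h (hd.1 h1)), ← chi3_eq]
    unfold chi3
    have h3 : T % 3 = 1 ∨ T % 3 = 2 := by omega
    rcases h3 with h3 | h3
    · rw [if_pos (by omega), if_neg (by omega), if_pos (by omega)]
    · rw [if_neg (by omega), if_pos (by omega), if_pos (by omega)]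
      norm_num

/-- C2 -/
theorem t_C2 : S_C2 := by
  classical
  intro P hP _ T hTo h7T hlt
  have hm := pr_mod hP
  obtain ⟨S, hSdef⟩ : ∃ S, S = 3 * pr P - T := ⟨_, rfl⟩
  rw [← hSdef]
  have hST : S + T = 3 * pr P := by omega
  have hS : S ≠ 0 := by omega
  have hT : T ≠ 0 := by rintro rfl; exact absurd hTo (by decide)
  have hS7 : ¬ 7 ∣ S := by
    intro h
    have h1 : 7 ∣ 3 * pr P := hST ▸ dvd_add h h7T
    rcases (Nat.Prime.dvd_mul (by norm_num)).1 h1 with h2 | h2
    · norm_num at h2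
    · exact seven_nd hP h2
  have e0 : ∀ l, ∑ i ∈ range (S.factorization l + 1), ∑ j ∈ range (T.factorization l + 1), Wl P S T l i j =
      Ls P S T l := fun l => rfl
  rw [WW_eq hP hS hT hST]
  simp only [e0]
  rw [← Finset.mul_prod_erase _ _ (mem_QQ2 (P := P) (S := S) (T := T)),
    ← Finset.mul_prod_erase _ _ (Finset.mem_erase.2 ⟨by norm_num, mem_QQ7 (P := P) (S := S) (T := T)⟩ :
        7 ∈ (QQ P S T).erase 2), Ls_two hP hTo, Ls_seven hP hS7]
  have e1 : ∏ l ∈ ((QQ P S T).erase 2).erase 7, Ls P S T l =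
      (∏ l ∈ P, (Psi P l ^ S.factorization l * chp l S)) * ∏ l ∈ Q' P S T, Ff P S T l := by
    have e2 : ((QQ P S T).erase 2).erase 7 = Q' P S T := rfl
    rw [e2, Finset.prod_congr rfl fun l (hl : l ∈ Q' P S T) => Ls_Q' hP hS hT hST hl,
      Finset.prod_mul_distrib, Finset.prod_ite_mem, Finset.inter_eq_right.2 (P_sub_Q' hP)]
  rw [e1]
  unfold loc
  have h7D : (4 * S * T).factorization 7 = T.factorization 7 := by
    rw [fac_D hS hT (by norm_num) (by norm_num), Nat.factorization_eq_zero_of_not_dvd hS7, zero_add]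
  rw [← prod_Ff hS hT, h7D, fac_D2 hS hTo]
  by_cases hodd : Odd (S.factorization 2)
  · rw [if_pos hodd, if_pos (by obtain ⟨k, hk⟩ := hodd; exact ⟨k + 1, by omega⟩)]
    by_cases hF : ∀ l ∈ Q' P S T, Ff P S T l ≠ 0
    · rw [sign_eq hP hS hT hST hodd hF, wt_eq hP hS hT hST (hF 3 three_mem_Q')]
      ring
    · push Not at hF
      obtain ⟨l, hl, hl0⟩ := hF
      rw [Finset.prod_eq_zero hl hl0]
      ring
  · rw [if_neg hodd, if_neg (by
      intro h
      apply hodd
      obtain ⟨k, hk⟩ := h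
      exact ⟨k - 1, by omega⟩)]
    ring

end Pool.Agent.Y574.Z7
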