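import Pool.Agent.Z700.Defs

/-!
# Z700-C2 (helper574): sums over divisors, symbols of the prime-to-`p` parts
-/

set_option autoImplicit false

namespace Pool.Agent.Y574.Z7

open Finset Pool.Agent.Z700

/-! ### sums over divisors -/

/-- the divisors of `l ^ s * n` -/
theorem div_split {l : ℕ} (hl : l.Prime) (s : ℕ) {n : ℕ} (hn : ¬ l ∣ n) (g : ℕ → ℤ) :
    ∑ a ∈ (l ^ s * n).divisors, g a = ∑ i ∈ range (s + 1), ∑ b ∈ n.divisors, g (l ^ i * b) := by
  have hc : (l ^ s).Coprime n := Nat.Coprime.pow_left s ((Nat.Prime.coprime_iff_not_dvd hl).2 hn)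
  rw [Nat.divisors_mul, Finset.mul_def, Finset.sum_image hc.mul_injOn_divisors, Finset.sum_product,
    Nat.divisors_prime_pow hl, Finset.sum_map]
  rfl

/-- a sum over pairs of divisors of a product of local functions -/
theorem sum_local (w : ℕ → ℕ → ℕ → ℤ) : ∀ (Q : Finset ℕ), (∀ l ∈ Q, l.Prime) → ∀ S T : ℕ, S ≠ 0 →
    T ≠ 0 → (∀ l, l.Prime → l ∣ S → l ∈ Q) → (∀ l, l.Prime → l ∣ T → l ∈ Q) →
    ∑ a ∈ S.divisors, ∑ a' ∈ T.divisors, ∏ l ∈ Q, w l (a.factorization l) (a'.factorization l) =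
      ∏ l ∈ Q, ∑ i ∈ range (S.factorization l + 1), ∑ j ∈ range (T.factorization l + 1), w l i j := by
  classical
  intro Q
  induction Q using Finset.induction_on with
  | empty =>
    intro _ S T hS hT h1 h2
    have e1 : S = 1 := by
      by_contra h
      obtain ⟨l, hl, hd⟩ := Nat.exists_prime_and_dvd h
      exact absurd (h1 l hl hd) (Finset.notMem_empty _)
    have e2 : T = 1 := by
      by_contra h
      obtain ⟨l, hl, hd⟩ := Nat.exists_prime_and_dvd h
      exact absurd (h2 l hl hd) (Finset.notMem_empty _)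
    rw [e1, e2]
    simp
  | insert l Q hlQ ih =>
    intro hpr S T hS hT h1 h2
    have hl : l.Prime := hpr l (Finset.mem_insert_self _ _)
    have hprQ : ∀ q ∈ Q, q.Prime := fun q hq => hpr q (Finset.mem_insert_of_mem hq)
    obtain ⟨s, hs⟩ : ∃ s, s = S.factorization l := ⟨_, rfl⟩
    obtain ⟨t, ht⟩ : ∃ t, t = T.factorization l := ⟨_, rfl⟩
    obtain ⟨S', hS'⟩ : ∃ S', S' = S / l ^ S.factorization l := ⟨_, rfl⟩
    obtain ⟨T', hT'⟩ : ∃ T', T' = T / l ^ T.factorization l := ⟨_, rfl⟩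
    have eS : S = l ^ s * S' := by rw [hs, hS']; exact (Nat.ordProj_mul_ordCompl_eq_self S l).symm
    have eT : T = l ^ t * T' := by rw [ht, hT']; exact (Nat.ordProj_mul_ordCompl_eq_self T l).symm
    have nS : ¬ l ∣ S' := by rw [hS']; exact Nat.not_dvd_ordCompl hl hS
    have nT : ¬ l ∣ T' := by rw [hT']; exact Nat.not_dvd_ordCompl hl hT
    have S0 : S' ≠ 0 := by rintro rfl; exact nS (dvd_zero _)
    have T0 : T' ≠ 0 := by rintro rfl; exact nT (dvd_zero _)
    have ne : ∀ q ∈ Q, l ≠ q := by rintro q hq rfl; exact hlQ hq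
    have fS : ∀ q ∈ Q, S.factorization q = S'.factorization q := by
      intro q hq
      rw [hS', Nat.factorization_ordCompl, Finsupp.erase_ne (ne q hq).symm]
    have fT : ∀ q ∈ Q, T.factorization q = T'.factorization q := by
      intro q hq
      rw [hT', Nat.factorization_ordCompl, Finsupp.erase_ne (ne q hq).symm]
    have ihh := ih hprQ S' T' S0 T0 (by
        intro q hq hd
        have h3 := h1 q hq (by rw [eS]; exact hd.mul_left _)
        rcases Finset.mem_insert.1 h3 with h4 | h4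
        · exact absurd (h4 ▸ hd) nS
        · exact h4) (by
        intro q hq hd
        have h3 := h2 q hq (by rw [eT]; exact hd.mul_left _)
        rcases Finset.mem_insert.1 h3 with h4 | h4
        · exact absurd (h4 ▸ hd) nT
        · exact h4)
    have key : ∀ (i : ℕ) (b : ℕ), b ≠ 0 → ¬ l ∣ b → (l ^ i * b).factorization l = i ∧
        ∀ q ∈ Q, (l ^ i * b).factorization q = b.factorization q := by
      intro i b hb hd
      constructor
      · rw [Nat.factorization_mul (pow_ne_zero _ hl.ne_zero) hb, Finsupp.add_apply,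
          hl.factorization_pow, Finsupp.single_eq_same, Nat.factorization_eq_zero_of_not_dvd hd, add_zero]
      · intro q hq
        rw [Nat.factorization_mul (pow_ne_zero _ hl.ne_zero) hb, Finsupp.add_apply,
          hl.factorization_pow, Finsupp.single_eq_of_ne (ne q hq).symm, zero_add]
    have e1 : ∑ a ∈ S.divisors, ∑ a' ∈ T.divisors,
        ∏ q ∈ insert l Q, w q (a.factorization q) (a'.factorization q) =
        ∑ i ∈ range (s + 1), ∑ b ∈ S'.divisors, ∑ j ∈ range (t + 1), ∑ b' ∈ T'.divisors,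
          w l i j * ∏ q ∈ Q, w q (b.factorization q) (b'.factorization q) := by
      rw [eS, div_split hl s nS]
      refine Finset.sum_congr rfl fun i _ => Finset.sum_congr rfl fun b hb => ?_
      rw [eT, div_split hl t nT]
      refine Finset.sum_congr rfl fun j _ => Finset.sum_congr rfl fun b' hb' => ?_
      have k1 := key i b (Nat.pos_of_mem_divisors hb).ne' (fun h => nS (h.trans (Nat.dvd_of_mem_divisors hb)))
      have k2 := key j b' (Nat.pos_of_mem_divisors hb').ne' (fun h => nT (h.trans (Nat.dvd_of_mem_divisors hb')))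
      rw [Finset.prod_insert hlQ, k1.1, k2.1]
      congr 1
      exact Finset.prod_congr rfl fun q hq => by rw [k1.2 q hq, k2.2 q hq]
    rw [e1, Finset.prod_insert hlQ, ← hs, ← ht]
    have e2 : ∏ q ∈ Q, ∑ i ∈ range (S.factorization q + 1), ∑ j ∈ range (T.factorization q + 1), w q i j =
        ∏ q ∈ Q, ∑ i ∈ range (S'.factorization q + 1), ∑ j ∈ range (T'.factorization q + 1), w q i j :=
      Finset.prod_congr rfl fun q hq => by rw [fS q hq, fT q hq]
    rw [e2, ← ihh, Finset.sum_mul]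
    refine Finset.sum_congr rfl fun i _ => ?_
    rw [Finset.sum_mul_sum, Finset.sum_comm]
    refine Finset.sum_congr rfl fun j _ => Finset.sum_congr rfl fun b _ => ?_
    rw [Finset.mul_sum]

/-! ### symbols -/

/-- the symbol of the part prime to `p` -/
def chp (p n : ℕ) : ℤ := jacobiSym ((n / p ^ n.factorization p : ℕ) : ℤ) p

theorem chp_mul (p a b : ℕ) : chp p (a * b) = chp p a * chp p b := by
  unfold chp
  rw [Nat.ordCompl_mul, Nat.cast_mul, jacobiSym.mul_left]

theorem chp_one (p : ℕ) : chp p 1 = 1 := by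
  unfold chp
  simp

theorem chp_self {p : ℕ} (hp : p.Prime) : chp p p = 1 := by
  unfold chp
  rw [hp.factorization_self, pow_one, Nat.div_self hp.pos]
  simp

theorem chp_nd {p n : ℕ} (h : ¬ p ∣ n) : chp p n = jacobiSym n p := by
  unfold chp
  rw [Nat.factorization_eq_zero_of_not_dvd h, pow_zero, Nat.div_one]

theorem chp_sq {p n : ℕ} (hp : p.Prime) (hn : n ≠ 0) : chp p n * chp p n = 1 := by
  have h := Nat.coprime_ordCompl hp hn
  unfold chp
  rw [← sq]
  apply jacobiSym.sq_one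
  rw [Int.gcd_natCast_natCast]
  exact h.symm

theorem chp_pm {p n : ℕ} (hp : p.Prime) (hn : n ≠ 0) : chp p n = 1 ∨ chp p n = -1 := by
  have h := chp_sq hp hn
  rcases mul_self_eq_one_iff.1 h with h | h
  · exact Or.inl h
  · exact Or.inr h

theorem jac_eq {p : ℕ} (hp : p.Prime) (n : ℕ) : jacobiSym n p = if p ∣ n then 0 else chp p n := by
  split_ifs with h
  · rw [jacobiSym.eq_zero_iff]
    refine ⟨hp.ne_zero, ?_⟩
    rw [Int.gcd_natCast_natCast, Nat.gcd_eq_right h]
    exact hp.one_lt.ne'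
  · exact (chp_nd h).symm

theorem chi3_eq (n : ℤ) : chi3 n = jacobiSym n 3 := by
  rw [jacobiSym.mod_left]
  unfold chi3
  have h : n % 3 = 0 ∨ n % 3 = 1 ∨ n % 3 = 2 := by omega
  rcases h with h | h | h
  · rw [show ((3 : ℕ) : ℤ) = 3 from rfl, h]; norm_num
  · rw [show ((3 : ℕ) : ℤ) = 3 from rfl, h]; norm_num
  · rw [show ((3 : ℕ) : ℤ) = 3 from rfl, h]; norm_num

/-- the product of the symbols -/
def Psi (P : Finset ℕ) (n : ℕ) : ℤ := ∏ q ∈ insert 3 P, chp q n

theorem Psi_one (P : Finset ℕ) : Psi P 1 = 1 := by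
  unfold Psi
  exact Finset.prod_eq_one fun q _ => chp_one q

theorem Psi_mul (P : Finset ℕ) (a b : ℕ) : Psi P (a * b) = Psi P a * Psi P b := by
  unfold Psi
  rw [← Finset.prod_mul_distrib]
  exact Finset.prod_congr rfl fun q _ => chp_mul q a b

theorem Psi_pow (P : Finset ℕ) (a k : ℕ) : Psi P (a ^ k) = Psi P a ^ k := by
  induction k with
  | zero => rw [pow_zero, pow_zero, Psi_one]
  | succ k ih => rw [pow_succ, Psi_mul, ih, pow_succ]

theorem Psi_prod (P : Finset ℕ) (s : Finset ℕ) (f : ℕ → ℕ) :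
    Psi P (∏ l ∈ s, f l) = ∏ l ∈ s, Psi P (f l) := by
  classical
  induction s using Finset.induction_on with
  | empty => rw [Finset.prod_empty, Finset.prod_empty, Psi_one]
  | insert l s hl ih => rw [Finset.prod_insert hl, Finset.prod_insert hl, Psi_mul, ih]

/-- `Psi` is completely multiplicative -/
theorem Psi_fac (P : Finset ℕ) (Q : Finset ℕ) (n : ℕ) (hn : n ≠ 0) (h : n.primeFactors ⊆ Q) :
    Psi P n = ∏ l ∈ Q, Psi P l ^ n.factorization l := by
  have h1 : ∏ l ∈ n.primeFactors, l ^ n.factorization l = n := by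
    have h2 := Nat.prod_factorization_pow_eq_self hn
    unfold Finsupp.prod at h2
    rwa [Nat.support_factorization] at h2
  have h2 : Psi P n = ∏ l ∈ n.primeFactors, Psi P l ^ n.factorization l := by
    conv_lhs => rw [← h1]
    rw [Psi_prod]
    exact Finset.prod_congr rfl fun l _ => Psi_pow P l _
  rw [h2]
  refine Finset.prod_subset h fun l _ hl => ?_
  rw [Finsupp.notMem_support_iff.1 (by rwa [Nat.support_factorization]), pow_zero]

theorem Psi_pm {P : Finset ℕ} (hP : ∀ p ∈ P, Fam p) {n : ℕ} (hn : n ≠ 0) : Psi P n = 1 ∨ Psi P n = -1 := by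
  have h : Psi P n * Psi P n = 1 := by
    unfold Psi
    rw [← Finset.prod_mul_distrib]
    refine Finset.prod_eq_one fun q hq => ?_
    rcases Finset.mem_insert.1 hq with rfl | hq
    · exact chp_sq Nat.prime_three hn
    · exact chp_sq (hP q hq).1 hn
  exact mul_self_eq_one_iff.1 h

/-! ### elementary facts on the primes of the family -/

theorem fne2 {p : ℕ} (h : Fam p) : p ≠ 2 := by rintro rfl; have := h.2.1; omega

theorem fne3 {p : ℕ} (h : Fam p) : p ≠ 3 := by rintro rfl; have := h.2.1; omega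

theorem fne7 {p : ℕ} (h : Fam p) : p ≠ 7 := by rintro rfl; have := h.2.1; omega

theorem three_notMem {P : Finset ℕ} (hP : ∀ p ∈ P, Fam p) : 3 ∉ P := fun h => (fne3 (hP 3 h)) rfl

theorem pr_pos {P : Finset ℕ} (hP : ∀ p ∈ P, Fam p) : 0 < pr P :=
  Finset.prod_pos fun p hp => (hP p hp).1.pos

theorem pr_mod {P : Finset ℕ} (hP : ∀ p ∈ P, Fam p) : pr P % 24 = 1 := by
  classical
  induction P using Finset.induction_on with
  | empty => rfl
  | insert p P hp ih =>
    have h1 := ih fun q hq => hP q (Finset.mem_insert_of_mem hq)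
    have h2 := (hP p (Finset.mem_insert_self _ _)).2.1
    unfold pr at h1 ⊢
    rw [Finset.prod_insert hp, Nat.mul_mod, h1, h2]

theorem seven_nd {P : Finset ℕ} (hP : ∀ p ∈ P, Fam p) : ¬ 7 ∣ pr P := by
  intro h
  obtain ⟨p, hp, hd⟩ := (Prime.dvd_finsetProd_iff (by norm_num : Nat.Prime 7).prime _).1 h
  exact (fne7 (hP p hp)) ((Nat.prime_dvd_prime_iff_eq (by norm_num) (hP p hp).1).1 hd).symm

theorem prime_dvd_pr {P : Finset ℕ} (hP : ∀ p ∈ P, Fam p) {q : ℕ} (hq : q.Prime) : q ∣ pr P ↔ q ∈ P := by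
  constructor
  · intro h
    obtain ⟨p, hp, hd⟩ := (Prime.dvd_finsetProd_iff hq.prime _).1 h
    rwa [(Nat.prime_dvd_prime_iff_eq hq (hP p hp).1).1 hd]
  · exact fun h => Finset.dvd_prod_of_mem _ h

/-- exactly one factor `q` in `3 m` -/
theorem sq_nd {P : Finset ℕ} (hP : ∀ p ∈ P, Fam p) {q : ℕ} (hq : q ∈ insert 3 P) : ¬ q * q ∣ 3 * pr P := by
  rcases Finset.mem_insert.1 hq with rfl | hq
  · intro h
    have h1 : 3 ∣ pr P := Nat.dvd_of_mul_dvd_mul_left (by norm_num) h
    exact three_notMem hP ((prime_dvd_pr hP Nat.prime_three).1 h1)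
  · intro h
    have hp := (hP q hq).1
    have h1 : 3 * pr P = q * (3 * ∏ p ∈ P.erase q, p) := by
      unfold pr
      rw [← Finset.mul_prod_erase P _ hq]
      ring
    rw [h1] at h
    have h2 : q ∣ 3 * ∏ p ∈ P.erase q, p := Nat.dvd_of_mul_dvd_mul_left hp.pos h
    rcases (Nat.Prime.dvd_mul hp).1 h2 with h3 | h3
    · exact (fne3 (hP q hq)) ((Nat.prime_dvd_prime_iff_eq hp Nat.prime_three).1 h3)
    · obtain ⟨r, hr, hd⟩ := (Prime.dvd_finsetProd_iff hp.prime _).1 h3
      have hr2 := Finset.mem_erase.1 hr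
      exact hr2.1 ((Nat.prime_dvd_prime_iff_eq hp (hP r hr2.2).1).1 hd).symm

theorem mem_prime {P : Finset ℕ} (hP : ∀ p ∈ P, Fam p) {q : ℕ} (hq : q ∈ insert 3 P) : q.Prime := by
  rcases Finset.mem_insert.1 hq with rfl | hq
  · exact Nat.prime_three
  · exact (hP q hq).1

theorem mem_dvd {P : Finset ℕ} {q : ℕ} (hq : q ∈ insert 3 P) : q ∣ 3 * pr P := by
  rcases Finset.mem_insert.1 hq with rfl | hq
  · exact Dvd.intro _ rfl
  · exact (Finset.dvd_prod_of_mem (fun p => p) hq).mul_left 3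

theorem prime_dvd_3pr {P : Finset ℕ} (hP : ∀ p ∈ P, Fam p) {q : ℕ} (hq : q.Prime) :
    q ∣ 3 * pr P ↔ q ∈ insert 3 P := by
  constructor
  · intro h
    rcases (Nat.Prime.dvd_mul hq).1 h with h | h
    · rw [(Nat.prime_dvd_prime_iff_eq hq Nat.prime_three).1 h]; exact Finset.mem_insert_self _ _
    · exact Finset.mem_insert_of_mem ((prime_dvd_pr hP hq).1 h)
  · exact mem_dvd

/-! ### values of the symbols -/

theorem jac_prod (a : ℤ) (s : Finset ℕ) (h : ∀ q ∈ s, q ≠ 0) :
    jacobiSym a (∏ q ∈ s, q) = ∏ q ∈ s, jacobiSym a q := by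
  classical
  induction s using Finset.induction_on with
  | empty => rw [Finset.prod_empty, Finset.prod_empty, jacobiSym.one_right]
  | insert l s hl ih =>
    rw [Finset.prod_insert hl, Finset.prod_insert hl, jacobiSym.mul_right' a
      (h l (Finset.mem_insert_self _ _)) (Finset.prod_ne_zero_iff.2 fun q hq =>
        h q (Finset.mem_insert_of_mem hq)), ih fun q hq => h q (Finset.mem_insert_of_mem hq)]

theorem prod_insert3 {P : Finset ℕ} (hP : ∀ p ∈ P, Fam p) : ∏ q ∈ insert 3 P, q = 3 * pr P := by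
  rw [Finset.prod_insert (three_notMem hP)]; rfl

/-- the value of `Psi` away from `3 m` -/
theorem Psi_nd {P : Finset ℕ} (hP : ∀ p ∈ P, Fam p) {n : ℕ} (h : ∀ q ∈ insert 3 P, ¬ q ∣ n) :
    Psi P n = jacobiSym n (3 * pr P) := by
  rw [← prod_insert3 hP, jac_prod _ _ fun q hq => (mem_prime hP hq).ne_zero]
  unfold Psi
  exact Finset.prod_congr rfl fun q hq => chp_nd (h q hq)

theorem odd_3pr {P : Finset ℕ} (hP : ∀ p ∈ P, Fam p) : Odd (3 * pr P) := by
  have := pr_mod hP
  rw [Nat.odd_iff]; omega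

/-- reciprocity -/
theorem recip {P : Finset ℕ} (hP : ∀ p ∈ P, Fam p) {l : ℕ} (hl : Odd l) :
    jacobiSym (-((3 * pr P : ℕ) : ℤ)) l = jacobiSym l (3 * pr P) := by
  have hm := pr_mod hP
  have h4 : (3 * pr P) % 4 = 3 := by omega
  rw [jacobiSym.neg _ hl]
  have h2 : l % 4 = 1 ∨ l % 4 = 3 := by
    rw [Nat.odd_iff] at hl; omega
  rcases h2 with h2 | h2
  · rw [ZMod.χ₄_nat_one_mod_four h2, one_mul, jacobiSym.quadratic_reciprocity_one_mod_four' (odd_3pr hP) h2]
  · rw [ZMod.χ₄_nat_three_mod_four h2, jacobiSym.quadratic_reciprocity_three_mod_four h4 h2]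
    ring

theorem Psi_l {P : Finset ℕ} (hP : ∀ p ∈ P, Fam p) {l : ℕ} (hl : l.Prime) (h2 : l ≠ 2)
    (h : l ∉ insert 3 P) : Psi P l = jacobiSym (-((3 * pr P : ℕ) : ℤ)) l := by
  rw [recip hP (hl.odd_of_ne_two h2), Psi_nd hP]
  intro q hq hd
  rw [(Nat.prime_dvd_prime_iff_eq (mem_prime hP hq) hl).1 hd] at hq
  exact h hq

theorem jac2 {p : ℕ} (h : Fam p) : jacobiSym 2 p = 1 := by
  have hp := h.1.odd_of_ne_two (fne2 h)
  rw [jacobiSym.at_two hp, ZMod.χ₈_nat_eq_if_mod_eight]
  have := h.2.1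
  rw [if_neg (by omega), if_pos (by left; omega)]

theorem jac3 {p : ℕ} (h : Fam p) : jacobiSym 3 p = 1 := by
  have := h.2.1
  have h1 := jacobiSym.quadratic_reciprocity_one_mod_four' (a := 3) (b := p) (by decide) (by omega)
  have h2 : jacobiSym (p : ℤ) 3 = 1 := by
    rw [jacobiSym.mod_left]
    have : (p : ℤ) % ((3 : ℕ) : ℤ) = 1 := by omega
    rw [this]; norm_num
  rw [← h2, ← h1]; rfl

theorem jac7 {p : ℕ} (h : Fam p) : jacobiSym 7 p = 1 := by
  have := h.2.1
  have h1 := jacobiSym.quadratic_reciprocity_one_mod_four' (a := 7) (b := p) (by decide) (by omega)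
  have h2 : jacobiSym (p : ℤ) 7 = 1 := by
    rw [jacobiSym.mod_left]
    rcases h.2.2 with h3 | h3 | h3
    · have : (p : ℤ) % ((7 : ℕ) : ℤ) = 1 := by omega
      rw [this]; norm_num
    · have : (p : ℤ) % ((7 : ℕ) : ℤ) = 2 := by omega
      rw [this]; norm_num
    · have : (p : ℤ) % ((7 : ℕ) : ℤ) = 4 := by omega
      rw [this]; norm_num
  rw [← h2, ← h1]; rfl

theorem Psi_two {P : Finset ℕ} (hP : ∀ p ∈ P, Fam p) : Psi P 2 = -1 := by
  unfold Psi
  rw [Finset.prod_insert (three_notMem hP), chp_nd (by norm_num)]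
  rw [Finset.prod_eq_one]
  · norm_num
  · intro p hp
    rw [chp_nd (fun hd => (fne2 (hP p hp)) ((Nat.prime_dvd_prime_iff_eq (hP p hp).1 Nat.prime_two).1 hd))]
    exact jac2 (hP p hp)

theorem Psi_seven {P : Finset ℕ} (hP : ∀ p ∈ P, Fam p) : Psi P 7 = 1 := by
  unfold Psi
  rw [Finset.prod_insert (three_notMem hP), chp_nd (by norm_num)]
  rw [Finset.prod_eq_one]
  · norm_num
  · intro p hp
    rw [chp_nd (fun hd => (fne7 (hP p hp)) ((Nat.prime_dvd_prime_iff_eq (hP p hp).1 (by norm_num)).1 hd))]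
    exact jac7 (hP p hp)

theorem Psi_three {P : Finset ℕ} (hP : ∀ p ∈ P, Fam p) : Psi P 3 = 1 := by
  unfold Psi
  rw [Finset.prod_insert (three_notMem hP), chp_self Nat.prime_three]
  rw [Finset.prod_eq_one]
  · norm_num
  · intro p hp
    rw [chp_nd (fun hd => (fne3 (hP p hp)) ((Nat.prime_dvd_prime_iff_eq (hP p hp).1 Nat.prime_three).1 hd))]
    exact jac3 (hP p hp)

theorem chp_prod (l : ℕ) (s : Finset ℕ) : chp l (∏ q ∈ s, q) = ∏ q ∈ s, chp l q := by
  classical
  induction s using Finset.induction_on with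
  | empty => rw [Finset.prod_empty, Finset.prod_empty, chp_one]
  | insert q s hq ih => rw [Finset.prod_insert hq, Finset.prod_insert hq, chp_mul, ih]

/-- reciprocity for the primes of the family -/
theorem Psi_p {P : Finset ℕ} (hP : ∀ p ∈ P, Fam p) {l : ℕ} (hl : l ∈ P) : Psi P l = chp l (3 * pr P) := by
  rw [← prod_insert3 hP, chp_prod]
  unfold Psi
  refine Finset.prod_congr rfl fun q hq => ?_
  have hlp := hP l hl
  have h24 := hlp.2.1
  rcases eq_or_ne q l with rfl | hne
  · rfl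
  · have h1 : ¬ q ∣ l := fun h => hne ((Nat.prime_dvd_prime_iff_eq (mem_prime hP hq) hlp.1).1 h)
    have h2 : ¬ l ∣ q := fun h => hne ((Nat.prime_dvd_prime_iff_eq hlp.1 (mem_prime hP hq)).1 h).symm
    rw [chp_nd h1, chp_nd h2]
    have hqo : Odd q := by
      rcases Finset.mem_insert.1 hq with rfl | hq
      · decide
      · exact (hP q hq).1.odd_of_ne_two (fne2 (hP q hq))
    exact jacobiSym.quadratic_reciprocity_one_mod_four (by omega) hqo

end Pool.Agent.Y574.Z7
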