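import Pool.Agent.Y574.Z7.A

/-!
# Z700-C2 (helper574): the summand as a product of local weights
-/

set_option autoImplicit false

namespace Pool.Agent.Y574.Z7

open Finset Pool.Agent.Z700

/-- the local weight -/
def wq (S T q i j : ℕ) : ℤ :=
  if q = 3 then (if 3 ∣ T then (if i = 0 ∧ j = 0 then 1
      else if i = S.factorization 3 ∧ j = T.factorization 3 then -(chp 3 S * chp 3 T) else 0) else 1)
  else (if q ∣ T then (if i = S.factorization q ∧ j = 0 then chp q S
      else if i = 0 ∧ j = T.factorization q then chp q T else 0) else chp q T)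

theorem dvd_fac {p n : ℕ} (hp : p.Prime) (hn : n ≠ 0) : p ∣ n ↔ 1 ≤ n.factorization p :=
  hp.dvd_iff_one_le_factorization hn

theorem psp_eq {p S T a a' : ℕ} (hp : p.Prime) (h3 : p ≠ 3) (hS : S ≠ 0) (hT : T ≠ 0) (hd : p ∣ S ↔ p ∣ T)
    (ha : a ∣ S) (ha' : a' ∣ T) :
    psp p a a' (S / a) (T / a') =
      chp p a * chp p a' * wq S T p (a.factorization p) (a'.factorization p) := by
  obtain ⟨Y, rfl⟩ := ha
  obtain ⟨X, rfl⟩ := ha'
  have a0 : a ≠ 0 := left_ne_zero_of_mul hS
  have Y0 : Y ≠ 0 := right_ne_zero_of_mul hS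
  have b0 : a' ≠ 0 := left_ne_zero_of_mul hT
  have X0 : X ≠ 0 := right_ne_zero_of_mul hT
  rw [Nat.mul_div_cancel_left _ (Nat.pos_of_ne_zero a0), Nat.mul_div_cancel_left _ (Nat.pos_of_ne_zero b0)]
  rw [dvd_fac hp hS, dvd_fac hp hT, Nat.factorization_mul a0 Y0, Nat.factorization_mul b0 X0,
    Finsupp.add_apply, Finsupp.add_apply] at hd
  unfold psp wq
  rw [if_neg h3, jac_eq hp, jac_eq hp]
  simp only [dvd_fac hp a0, dvd_fac hp X0, dvd_fac hp (mul_ne_zero b0 Y0),
    dvd_fac hp (mul_ne_zero a0 X0), dvd_fac hp hT, Nat.factorization_mul a0 Y0, Nat.factorization_mul b0 X0,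
    Nat.factorization_mul b0 Y0, Nat.factorization_mul a0 X0, Finsupp.add_apply, chp_mul]
  have s1 := chp_sq hp a0
  have s2 := chp_sq hp b0
  generalize a.factorization p = i at *
  generalize Y.factorization p = y at *
  generalize a'.factorization p = j at *
  generalize X.factorization p = x at *
  generalize chp p a = α at *
  generalize chp p a' = α' at *
  generalize chp p Y = υ at *
  generalize chp p X = ξ at *
  split_ifs
  all_goals first
    | (exfalso; omega)
    | (linear_combination (-(α' * υ)) * s1)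
    | (linear_combination (-(α * ξ)) * s2)
    | ring1

theorem ps3_eq {S T a a' : ℕ} (hS : S ≠ 0) (hT : T ≠ 0) (hd : 3 ∣ S ↔ 3 ∣ T)
    (ha : a ∣ S) (ha' : a' ∣ T) :
    ps3 a a' (S / a) (T / a') =
      chp 3 a * chp 3 a' * wq S T 3 (a.factorization 3) (a'.factorization 3) := by
  have hp := Nat.prime_three
  obtain ⟨Y, rfl⟩ := ha
  obtain ⟨X, rfl⟩ := ha'
  have a0 : a ≠ 0 := left_ne_zero_of_mul hS
  have Y0 : Y ≠ 0 := right_ne_zero_of_mul hS
  have b0 : a' ≠ 0 := left_ne_zero_of_mul hT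
  have X0 : X ≠ 0 := right_ne_zero_of_mul hT
  rw [Nat.mul_div_cancel_left _ (Nat.pos_of_ne_zero a0), Nat.mul_div_cancel_left _ (Nat.pos_of_ne_zero b0)]
  rw [dvd_fac hp hS, dvd_fac hp hT, Nat.factorization_mul a0 Y0, Nat.factorization_mul b0 X0,
    Finsupp.add_apply, Finsupp.add_apply] at hd
  unfold ps3 wq
  rw [if_pos rfl, chi3_eq, chi3_eq, jac_eq hp, jac_eq hp]
  simp only [dvd_fac hp a0, dvd_fac hp b0, dvd_fac hp (mul_ne_zero X0 Y0),
    dvd_fac hp (mul_ne_zero a0 b0), dvd_fac hp hT, Nat.factorization_mul a0 Y0, Nat.factorization_mul b0 X0,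
    Nat.factorization_mul X0 Y0, Nat.factorization_mul a0 b0, Finsupp.add_apply, chp_mul]
  have s1 := chp_sq hp a0
  have s2 := chp_sq hp b0
  generalize a.factorization 3 = i at *
  generalize Y.factorization 3 = y at *
  generalize a'.factorization 3 = j at *
  generalize X.factorization 3 = x at *
  generalize chp 3 a = α at *
  generalize chp 3 a' = α' at *
  generalize chp 3 Y = υ at *
  generalize chp 3 X = ξ at *
  split_ifs
  all_goals first
    | (exfalso; omega)
    | ring1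
    | (linear_combination (υ * ξ * (α' * α')) * s1 + (υ * ξ) * s2)

/-- all the primes -/
def QQ (P : Finset ℕ) (S T : ℕ) : Finset ℕ := insert 2 (insert 7 (insert 3 P ∪ (S * T).primeFactors))

/-- the local weights -/
def Wl (P : Finset ℕ) (S T l i j : ℕ) : ℤ :=
  Psi P l ^ (i + j) * (if l ∈ insert 3 P then wq S T l i j else 1) *
    (if l = 2 then (if 1 ≤ i then 1 else 0) else 1) * (if l = 7 then (if 1 ≤ j then 1 else 0) else 1)

theorem mem_QQ2 {P : Finset ℕ} {S T : ℕ} : 2 ∈ QQ P S T := Finset.mem_insert_self _ _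

theorem mem_QQ7 {P : Finset ℕ} {S T : ℕ} : 7 ∈ QQ P S T :=
  Finset.mem_insert_of_mem (Finset.mem_insert_self _ _)

theorem sub_QQ {P : Finset ℕ} {S T : ℕ} : insert 3 P ⊆ QQ P S T := fun _ hq =>
  Finset.mem_insert_of_mem (Finset.mem_insert_of_mem (Finset.mem_union_left _ hq))

theorem pf_QQ {P : Finset ℕ} {S T : ℕ} : (S * T).primeFactors ⊆ QQ P S T := fun _ hq =>
  Finset.mem_insert_of_mem (Finset.mem_insert_of_mem (Finset.mem_union_right _ hq))

theorem QQ_prime {P : Finset ℕ} (hP : ∀ p ∈ P, Fam p) {S T : ℕ} : ∀ l ∈ QQ P S T, l.Prime := by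
  intro l hl
  unfold QQ at hl
  rcases Finset.mem_insert.1 hl with rfl | hl
  · exact Nat.prime_two
  rcases Finset.mem_insert.1 hl with rfl | hl
  · norm_num
  rcases Finset.mem_union.1 hl with hl | hl
  · exact mem_prime hP hl
  · exact Nat.prime_of_mem_primeFactors hl

theorem dvd_iff' {P : Finset ℕ} {S T : ℕ} (hST : S + T = 3 * pr P) {q : ℕ} (hq : q ∈ insert 3 P) :
    q ∣ S ↔ q ∣ T := by
  have h := mem_dvd hq
  rw [← hST] at h
  exact ⟨fun h1 => (Nat.dvd_add_right h1).1 h, fun h1 => (Nat.dvd_add_left h1).1 h⟩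

theorem term_eq {P : Finset ℕ} (hP : ∀ p ∈ P, Fam p) {S T : ℕ} (hS : S ≠ 0) (hT : T ≠ 0)
    (hST : S + T = 3 * pr P) {a a' : ℕ} (ha : a ∣ S) (ha' : a' ∣ T) :
    (if 2 ∣ a then (if 7 ∣ a' then
      ps3 a a' (S / a) (T / a') * ∏ p ∈ P, psp p a a' (S / a) (T / a') else 0) else 0) =
      ∏ l ∈ QQ P S T, Wl P S T l (a.factorization l) (a'.factorization l) := by
  classical
  have a0 : a ≠ 0 := by rintro rfl; exact hS (zero_dvd_iff.1 ha)
  have b0 : a' ≠ 0 := by rintro rfl; exact hT (zero_dvd_iff.1 ha')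
  have hsa : a.primeFactors ⊆ QQ P S T :=
    (Nat.primeFactors_mono (ha.mul_right T) (mul_ne_zero hS hT)).trans pf_QQ
  have hsb : a'.primeFactors ⊆ QQ P S T :=
    (Nat.primeFactors_mono (ha'.mul_left S) (mul_ne_zero hS hT)).trans pf_QQ
  unfold Wl
  rw [Finset.prod_mul_distrib, Finset.prod_mul_distrib, Finset.prod_mul_distrib]
  have e1 : ∏ l ∈ QQ P S T, Psi P l ^ (a.factorization l + a'.factorization l) = Psi P a * Psi P a' := by
    rw [Psi_fac P (QQ P S T) a a0 hsa, Psi_fac P (QQ P S T) a' b0 hsb, ← Finset.prod_mul_distrib]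
    exact Finset.prod_congr rfl fun l _ => pow_add _ _ _
  have e2 : ∏ l ∈ QQ P S T, (if l ∈ insert 3 P then wq S T l (a.factorization l) (a'.factorization l) else 1) =
      ∏ l ∈ insert 3 P, wq S T l (a.factorization l) (a'.factorization l) := by
    rw [Finset.prod_ite_mem, Finset.inter_eq_right.2 sub_QQ]
  have e3 : ∏ l ∈ QQ P S T, (if l = 2 then (if 1 ≤ a.factorization l then (1 : ℤ) else 0) else 1) =
      if 2 ∣ a then 1 else 0 := by
    rw [Finset.prod_ite_eq' (QQ P S T) 2 (fun l => if 1 ≤ a.factorization l then (1 : ℤ) else 0),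
      if_pos mem_QQ2]
    simp only [dvd_fac Nat.prime_two a0]
  have e4 : ∏ l ∈ QQ P S T, (if l = 7 then (if 1 ≤ a'.factorization l then (1 : ℤ) else 0) else 1) =
      if 7 ∣ a' then 1 else 0 := by
    rw [Finset.prod_ite_eq' (QQ P S T) 7 (fun l => if 1 ≤ a'.factorization l then (1 : ℤ) else 0),
      if_pos mem_QQ7]
    simp only [dvd_fac (by norm_num : Nat.Prime 7) b0]
  rw [e1, e2, e3, e4]
  have e5 : ps3 a a' (S / a) (T / a') * ∏ p ∈ P, psp p a a' (S / a) (T / a') =
      Psi P a * Psi P a' * ∏ l ∈ insert 3 P, wq S T l (a.factorization l) (a'.factorization l) := by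
    have h3 := three_notMem hP
    unfold Psi
    rw [← Finset.prod_mul_distrib, ← Finset.prod_mul_distrib, Finset.prod_insert h3,
      ps3_eq hS hT (dvd_iff' hST (Finset.mem_insert_self _ _)) ha ha']
    congr 1
    exact Finset.prod_congr rfl fun p hp => psp_eq (hP p hp).1 (fne3 (hP p hp)) hS hT
      (dvd_iff' hST (Finset.mem_insert_of_mem hp)) ha ha'
  rw [e5]
  split_ifs <;> simp

theorem WW_eq {P : Finset ℕ} (hP : ∀ p ∈ P, Fam p) {S T : ℕ} (hS : S ≠ 0) (hT : T ≠ 0)
    (hST : S + T = 3 * pr P) :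
    WW P S T = ∏ l ∈ QQ P S T, ∑ i ∈ range (S.factorization l + 1),
      ∑ j ∈ range (T.factorization l + 1), Wl P S T l i j := by
  rw [← sum_local (Wl P S T) (QQ P S T) (QQ_prime hP) S T hS hT
    (fun l hl hd => pf_QQ (Nat.mem_primeFactors.2 ⟨hl, hd.mul_right T, mul_ne_zero hS hT⟩))
    (fun l hl hd => pf_QQ (Nat.mem_primeFactors.2 ⟨hl, hd.mul_left S, mul_ne_zero hS hT⟩))]
  unfold WW
  rw [Finset.sum_filter]
  refine Finset.sum_congr rfl fun a ha => ?_
  rw [Finset.sum_filter]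
  have ha1 := Nat.dvd_of_mem_divisors ha
  have h1 : ∀ a' ∈ T.divisors, ∏ l ∈ QQ P S T, Wl P S T l (a.factorization l) (a'.factorization l) =
      (if 2 ∣ a then (if 7 ∣ a' then
      ps3 a a' (S / a) (T / a') * ∏ p ∈ P, psp p a a' (S / a) (T / a') else 0) else 0) :=
    fun a' ha' => (term_eq hP hS hT hST ha1 (Nat.dvd_of_mem_divisors ha')).symm
  rw [Finset.sum_congr rfl h1]
  by_cases h2 : 2 ∣ a
  · simp only [if_pos h2]
  · simp only [if_neg h2, Finset.sum_const_zero]

end Pool.Agent.Y574.Z7
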